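import Mathlib

/-!
# Ang: angles on connected sets; the square lemma
-/

set_option autoImplicit false
set_option linter.unusedSectionVars false

namespace Pool.Agent.Work.MP_e7996b_gt.TN

open Set Topology Filter

/-- if `cos θ + sin θ` has no zero on the connected set `S` then `θ` varies by less than `π` on `S` -/
theorem abs_sub_lt_pi {T : Type*} [TopologicalSpace T] {S : Set T} (hS : IsPreconnected S) {θ : T → ℝ}
    (hθ : ContinuousOn θ S) (h : ∀ z ∈ S, Real.cos (θ z) + Real.sin (θ z) ≠ 0) {x y : T} (hx : x ∈ S)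
    (hy : y ∈ S) : |θ x - θ y| < Real.pi := by
  have hoc : OrdConnected (θ '' S) := (hS.image θ hθ).ordConnected
  have main : ∀ u ∈ θ '' S, ∀ v ∈ θ '' S, v < u + Real.pi := by
    intro u hu v hv
    by_contra hlt
    rw [not_lt] at hlt
    have hsub : Icc u (u + Real.pi) ⊆ θ '' S := (Icc_subset_Icc_right hlt).trans (hoc.out hu hv)
    let φ : ℝ → ℝ := fun w => Real.cos w + Real.sin w
    have hφ : Continuous φ := Real.continuous_cos.add Real.continuous_sin
    have hπ := Real.pi_pos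
    have h1 : φ (u + Real.pi) = -φ u := by
      show Real.cos (u + Real.pi) + Real.sin (u + Real.pi) = -(Real.cos u + Real.sin u)
      rw [Real.cos_add_pi, Real.sin_add_pi]
      ring
    have h2 : ∃ w ∈ Icc u (u + Real.pi), φ w = 0 := by
      rcases le_total (φ u) 0 with h3 | h3
      · have := intermediate_value_Icc (by linarith : u ≤ u + Real.pi) hφ.continuousOn
        exact this ⟨h3, by rw [h1]; linarith⟩
      · have := intermediate_value_Icc' (by linarith : u ≤ u + Real.pi) hφ.continuousOn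
        exact this ⟨by rw [h1]; linarith, h3⟩
    obtain ⟨w, hw, hw0⟩ := h2
    obtain ⟨z, hz, rfl⟩ := hsub hw
    exact h z hz hw0
  have h1 := main _ ⟨x, hx, rfl⟩ _ ⟨y, hy, rfl⟩
  have h2 := main _ ⟨y, hy, rfl⟩ _ ⟨x, hx, rfl⟩
  rw [abs_lt]
  constructor <;> linarith

/-- a quarter turn -/
theorem quarter {T : Type*} [TopologicalSpace T] {S : Set T} (hS : IsPreconnected S) {θ : T → ℝ}
    (hθ : ContinuousOn θ S) (hc : ∀ z ∈ S, 0 ≤ Real.cos (θ z)) (hs : ∀ z ∈ S, 0 ≤ Real.sin (θ z)) {x y : T}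
    (hx : x ∈ S) (hy : y ∈ S) (hx0 : Real.sin (θ x) = 0) (hy0 : Real.cos (θ y) = 0) :
    θ y - θ x = Real.pi / 2 := by
  have hlt := abs_sub_lt_pi hS hθ (fun z hz => by
    have h1 := hc z hz
    have h2 := hs z hz
    have h3 := Real.sin_sq_add_cos_sq (θ z)
    intro h4
    have h5 : Real.cos (θ z) = 0 := by linarith
    have h6 : Real.sin (θ z) = 0 := by linarith
    rw [h5, h6] at h3
    norm_num at h3) hy hx
  have hcx : Real.cos (θ x) = 1 := by
    have h3 := Real.sin_sq_add_cos_sq (θ x)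
    have h1 := hc x hx
    rw [hx0] at h3
    nlinarith
  have hsy : Real.sin (θ y) = 1 := by
    have h3 := Real.sin_sq_add_cos_sq (θ y)
    have h1 := hs y hy
    rw [hy0] at h3
    nlinarith
  have h1 : Real.cos (θ y - θ x) = 0 := by rw [Real.cos_sub, hy0, hx0]; ring
  have h2 : Real.sin (θ y - θ x) = 1 := by rw [Real.sin_sub, hy0, hx0, hcx, hsy]; ring
  rw [abs_lt] at hlt
  have hpos : 0 < θ y - θ x := by
    by_contra hn
    have := Real.sin_nonpos_of_nonpos_of_neg_pi_le (not_lt.1 hn) hlt.1.le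
    rw [h2] at this
    linarith
  have hπ := Real.pi_pos
  exact Real.injOn_cos ⟨hpos.le, hlt.2.le⟩ ⟨by linarith, by linarith⟩ (by rw [h1, Real.cos_pi_div_two])

/-- a logarithm of `1` is constant on connected sets -/
theorem exp_one_const {T : Type*} [TopologicalSpace T] {S : Set T} (hS : IsPreconnected S) {h : T → ℂ}
    (hh : ContinuousOn h S) (h1 : ∀ z ∈ S, Complex.exp (h z) = 1) {x y : T} (hx : x ∈ S) (hy : y ∈ S) :
    h x = h y := by
  have hre : ∀ z ∈ S, (h z).re = 0 := by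
    intro z hz
    have h2 := congrArg norm (h1 z hz)
    rw [Complex.norm_exp, norm_one] at h2
    exact Real.exp_eq_one_iff _ |>.1 h2
  have hcos : ∀ z ∈ S, Real.cos (h z).im = 1 := by
    intro z hz
    have h2 := congrArg Complex.re (h1 z hz)
    rw [Complex.exp_re, hre z hz] at h2
    simpa using h2
  have hsin : ∀ z ∈ S, Real.sin (h z).im = 0 := by
    intro z hz
    have h2 := congrArg Complex.im (h1 z hz)
    rw [Complex.exp_im, hre z hz] at h2
    simpa using h2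
  have hlt := abs_sub_lt_pi hS (θ := fun z => (h z).im) (Complex.continuous_im.comp_continuousOn hh)
    (fun z hz => by rw [hcos z hz, hsin z hz]; norm_num) hx hy
  apply Complex.ext
  · rw [hre x hx, hre y hy]
  · have h2 : Real.cos ((h x).im - (h y).im) = 1 := by
      rw [Real.cos_sub, hcos x hx, hcos y hy, hsin x hx]
      ring
    rw [abs_lt] at hlt
    have hπ := Real.pi_pos
    have := (Real.cos_eq_one_iff_of_lt_of_lt (by linarith [hlt.1]) (by linarith [hlt.2])).1 h2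
    linarith

/-- the square -/
abbrev Sq := unitInterval × unitInterval

/-- the boundary of the square -/
def bd : Set Sq := {z | z.1 = 0 ∨ z.1 = 1 ∨ z.2 = 0 ∨ z.2 = 1}

theorem isClosed_bd : IsClosed bd := by
  have h1 : ∀ c : unitInterval, IsClosed {z : Sq | z.1 = c} := fun c =>
    isClosed_eq continuous_fst continuous_const
  have h2 : ∀ c : unitInterval, IsClosed {z : Sq | z.2 = c} := fun c =>
    isClosed_eq continuous_snd continuous_const
  exact (h1 0).union ((h1 1).union ((h2 0).union (h2 1)))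

/-- no logarithm along the boundary of the square -/
theorem square_no_log {s t : unitInterval} (hs0 : 0 < s) (hs1 : s < 1) (ht0 : 0 < t) (ht1 : t < 1) {Ψ : Sq → ℂ}
    {g : Sq → ℂ} (hg : Continuous g) (hgΨ : ∀ z, Ψ z = Complex.exp (g z))
    (hrep : ∀ z ∈ bd, s < z.1 → 0 < (Ψ z).re) (hren : ∀ z ∈ bd, z.1 < s → (Ψ z).re < 0)
    (hre0 : ∀ z ∈ bd, z.1 = s → (Ψ z).re = 0)
    (himp : ∀ z ∈ bd, t < z.2 → 0 < (Ψ z).im) (himn : ∀ z ∈ bd, z.2 < t → (Ψ z).im < 0)
    (him0 : ∀ z ∈ bd, z.2 = t → (Ψ z).im = 0) : False := by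
  have hre : ∀ z, (Ψ z).re = Real.exp (g z).re * Real.cos (g z).im := fun z => by
    rw [hgΨ, Complex.exp_re]
  have him : ∀ z, (Ψ z).im = Real.exp (g z).re * Real.sin (g z).im := fun z => by
    rw [hgΨ, Complex.exp_im]
  have hex : ∀ z, 0 < Real.exp (g z).re := fun z => Real.exp_pos _
  -- signs of `cos` and `sin`
  have hθ : Continuous fun z => (g z).im := Complex.continuous_im.comp hg
  have cge : ∀ z ∈ bd, s ≤ z.1 → 0 ≤ Real.cos (g z).im := by
    intro z hz h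
    have h1 : 0 ≤ (Ψ z).re := by
      rcases h.eq_or_lt with h | h
      · exact (hre0 z hz h.symm).ge
      · exact (hrep z hz h).le
    rw [hre] at h1
    exact (mul_nonneg_iff_of_pos_left (hex z)).1 h1
  have cle : ∀ z ∈ bd, z.1 ≤ s → Real.cos (g z).im ≤ 0 := by
    intro z hz h
    have h1 : (Ψ z).re ≤ 0 := by
      rcases h.eq_or_lt with h | h
      · exact (hre0 z hz h).le
      · exact (hren z hz h).le
    rw [hre] at h1
    by_contra hn
    exact absurd h1 (not_le.2 (mul_pos (hex z) (not_le.1 hn)))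
  have ceq : ∀ z ∈ bd, z.1 = s → Real.cos (g z).im = 0 := fun z hz h =>
    le_antisymm (cle z hz h.le) (cge z hz h.ge)
  have sge : ∀ z ∈ bd, t ≤ z.2 → 0 ≤ Real.sin (g z).im := by
    intro z hz h
    have h1 : 0 ≤ (Ψ z).im := by
      rcases h.eq_or_lt with h | h
      · exact (him0 z hz h.symm).ge
      · exact (himp z hz h).le
    rw [him] at h1
    exact (mul_nonneg_iff_of_pos_left (hex z)).1 h1
  have sle : ∀ z ∈ bd, z.2 ≤ t → Real.sin (g z).im ≤ 0 := by
    intro z hz h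
    have h1 : (Ψ z).im ≤ 0 := by
      rcases h.eq_or_lt with h | h
      · exact (him0 z hz h).le
      · exact (himn z hz h).le
    rw [him] at h1
    by_contra hn
    exact absurd h1 (not_le.2 (mul_pos (hex z) (not_le.1 hn)))
  have seq : ∀ z ∈ bd, z.2 = t → Real.sin (g z).im = 0 := fun z hz h =>
    le_antisymm (sle z hz h.le) (sge z hz h.ge)
  -- the four pieces of the boundary
  have hV : ∀ (c u v : unitInterval), IsPreconnected (({c} : Set unitInterval) ×ˢ Icc u v) := fun c u v =>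
    isPreconnected_singleton.prod isPreconnected_Icc
  have hH : ∀ (c u v : unitInterval), IsPreconnected (Icc u v ×ˢ ({c} : Set unitInterval)) := fun c u v =>
    isPreconnected_Icc.prod isPreconnected_singleton
  have q1 : (g (s, 1)).im - (g (1, t)).im = Real.pi / 2 := by
    refine quarter (S := ({1} ×ˢ Icc t 1) ∪ (Icc s 1 ×ˢ {1})) ?_ hθ.continuousOn (θ := fun z => (g z).im)
      (x := ((1 : unitInterval), t)) (y := (s, (1 : unitInterval))) ?_ ?_ ?_ ?_ ?_ ?_
    · exact IsPreconnected.union (1, 1) ⟨rfl, ht1.le, le_rfl⟩ ⟨⟨hs1.le, le_rfl⟩, rfl⟩ (hV 1 t 1) (hH 1 s 1)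
    · rintro ⟨z1, z2⟩ (⟨h1, h2⟩ | ⟨h1, h2⟩)
      · exact cge _ (Or.inr (Or.inl h1)) (by rw [mem_singleton_iff] at h1; rw [h1]; exact hs1.le)
      · exact cge _ (Or.inr (Or.inr (Or.inr h2))) h1.1
    · rintro ⟨z1, z2⟩ (⟨h1, h2⟩ | ⟨h1, h2⟩)
      · exact sge _ (Or.inr (Or.inl h1)) h2.1
      · exact sge _ (Or.inr (Or.inr (Or.inr h2))) (by rw [mem_singleton_iff] at h2; rw [h2]; exact ht1.le)
    · exact Or.inl ⟨rfl, le_rfl, ht1.le⟩
    · exact Or.inr ⟨⟨le_rfl, hs1.le⟩, rfl⟩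
    · exact seq _ (Or.inr (Or.inl rfl)) rfl
    · exact ceq _ (Or.inr (Or.inr (Or.inr rfl))) rfl
  have q2 : ((g (0, t)).im - Real.pi / 2) - ((g (s, 1)).im - Real.pi / 2) = Real.pi / 2 := by
    refine quarter (S := (Icc 0 s ×ˢ {1}) ∪ ({0} ×ˢ Icc t 1)) ?_
      (hθ.sub continuous_const).continuousOn (θ := fun z => (g z).im - Real.pi / 2)
      (x := (s, (1 : unitInterval))) (y := ((0 : unitInterval), t)) ?_ ?_ ?_ ?_ ?_ ?_
    · exact IsPreconnected.union (0, 1) ⟨⟨le_rfl, hs0.le⟩, rfl⟩ ⟨rfl, ht1.le, le_rfl⟩ (hH 1 0 s) (hV 0 t 1)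
    · rintro ⟨z1, z2⟩ (⟨h1, h2⟩ | ⟨h1, h2⟩)
      · show 0 ≤ Real.cos (_ - _)
        rw [Real.cos_sub_pi_div_two]
        exact sge _ (Or.inr (Or.inr (Or.inr h2))) (by rw [mem_singleton_iff] at h2; rw [h2]; exact ht1.le)
      · show 0 ≤ Real.cos (_ - _)
        rw [Real.cos_sub_pi_div_two]
        exact sge _ (Or.inl h1) h2.1
    · rintro ⟨z1, z2⟩ (⟨h1, h2⟩ | ⟨h1, h2⟩)
      · show 0 ≤ Real.sin (_ - _)
        rw [Real.sin_sub_pi_div_two]
        exact neg_nonneg.2 (cle _ (Or.inr (Or.inr (Or.inr h2))) h1.2)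
      · show 0 ≤ Real.sin (_ - _)
        rw [Real.sin_sub_pi_div_two]
        exact neg_nonneg.2 (cle _ (Or.inl h1) (by rw [mem_singleton_iff] at h1; rw [h1]; exact hs0.le))
    · exact Or.inl ⟨⟨hs0.le, le_rfl⟩, rfl⟩
    · exact Or.inr ⟨rfl, le_rfl, ht1.le⟩
    · show Real.sin (_ - _) = 0
      rw [Real.sin_sub_pi_div_two, ceq _ (Or.inr (Or.inr (Or.inr rfl))) rfl, neg_zero]
    · show Real.cos (_ - _) = 0
      rw [Real.cos_sub_pi_div_two]
      exact seq _ (Or.inl rfl) rfl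
  have q3 : ((g (s, 0)).im - Real.pi) - ((g (0, t)).im - Real.pi) = Real.pi / 2 := by
    refine quarter (S := ({0} ×ˢ Icc 0 t) ∪ (Icc 0 s ×ˢ {0})) ?_
      (hθ.sub continuous_const).continuousOn (θ := fun z => (g z).im - Real.pi)
      (x := ((0 : unitInterval), t)) (y := (s, (0 : unitInterval))) ?_ ?_ ?_ ?_ ?_ ?_
    · exact IsPreconnected.union (0, 0) ⟨rfl, le_rfl, ht0.le⟩ ⟨⟨le_rfl, hs0.le⟩, rfl⟩ (hV 0 0 t) (hH 0 0 s)
    · rintro ⟨z1, z2⟩ (⟨h1, h2⟩ | ⟨h1, h2⟩)
      · show 0 ≤ Real.cos (_ - _)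
        rw [Real.cos_sub_pi]
        exact neg_nonneg.2 (cle _ (Or.inl h1) (by rw [mem_singleton_iff] at h1; rw [h1]; exact hs0.le))
      · show 0 ≤ Real.cos (_ - _)
        rw [Real.cos_sub_pi]
        exact neg_nonneg.2 (cle _ (Or.inr (Or.inr (Or.inl h2))) h1.2)
    · rintro ⟨z1, z2⟩ (⟨h1, h2⟩ | ⟨h1, h2⟩)
      · show 0 ≤ Real.sin (_ - _)
        rw [Real.sin_sub_pi]
        exact neg_nonneg.2 (sle _ (Or.inl h1) h2.2)
      · show 0 ≤ Real.sin (_ - _)
        rw [Real.sin_sub_pi]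
        exact neg_nonneg.2 (sle _ (Or.inr (Or.inr (Or.inl h2)))
          (by rw [mem_singleton_iff] at h2; rw [h2]; exact ht0.le))
    · exact Or.inl ⟨rfl, ht0.le, le_rfl⟩
    · exact Or.inr ⟨⟨hs0.le, le_rfl⟩, rfl⟩
    · show Real.sin (_ - _) = 0
      rw [Real.sin_sub_pi, seq _ (Or.inl rfl) rfl, neg_zero]
    · show Real.cos (_ - _) = 0
      rw [Real.cos_sub_pi, ceq _ (Or.inr (Or.inr (Or.inl rfl))) rfl, neg_zero]
  have q4 : ((g (1, t)).im + Real.pi / 2) - ((g (s, 0)).im + Real.pi / 2) = Real.pi / 2 := by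
    refine quarter (S := (Icc s 1 ×ˢ {0}) ∪ ({1} ×ˢ Icc 0 t)) ?_
      (hθ.add continuous_const).continuousOn (θ := fun z => (g z).im + Real.pi / 2)
      (x := (s, (0 : unitInterval))) (y := ((1 : unitInterval), t)) ?_ ?_ ?_ ?_ ?_ ?_
    · exact IsPreconnected.union (1, 0) ⟨⟨hs1.le, le_rfl⟩, rfl⟩ ⟨rfl, le_rfl, ht0.le⟩ (hH 0 s 1) (hV 1 0 t)
    · rintro ⟨z1, z2⟩ (⟨h1, h2⟩ | ⟨h1, h2⟩)
      · show 0 ≤ Real.cos (_ + _)
        rw [Real.cos_add_pi_div_two]
        exact neg_nonneg.2 (sle _ (Or.inr (Or.inr (Or.inl h2)))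
          (by rw [mem_singleton_iff] at h2; rw [h2]; exact ht0.le))
      · show 0 ≤ Real.cos (_ + _)
        rw [Real.cos_add_pi_div_two]
        exact neg_nonneg.2 (sle _ (Or.inr (Or.inl h1)) h2.2)
    · rintro ⟨z1, z2⟩ (⟨h1, h2⟩ | ⟨h1, h2⟩)
      · show 0 ≤ Real.sin (_ + _)
        rw [Real.sin_add_pi_div_two]
        exact cge _ (Or.inr (Or.inr (Or.inl h2))) h1.1
      · show 0 ≤ Real.sin (_ + _)
        rw [Real.sin_add_pi_div_two]
        exact cge _ (Or.inr (Or.inl h1)) (by rw [mem_singleton_iff] at h1; rw [h1]; exact hs1.le)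
    · exact Or.inl ⟨⟨le_rfl, hs1.le⟩, rfl⟩
    · exact Or.inr ⟨rfl, ht0.le, le_rfl⟩
    · show Real.sin (_ + _) = 0
      rw [Real.sin_add_pi_div_two, ceq _ (Or.inr (Or.inr (Or.inl rfl))) rfl]
    · show Real.cos (_ + _) = 0
      rw [Real.cos_add_pi_div_two, seq _ (Or.inr (Or.inl rfl)) rfl, neg_zero]
  have hπ := Real.pi_pos
  linarith

end Pool.Agent.Work.MP_e7996b_gt.TN
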