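import Pool.Agent.Work.MP_e7996b_gt.Log

/-!
# DimExt: maps from closed subsets of a space of dimension at most one to the circle extend

`exists_ext`: `X` compact metric of covering dimension at most one, `Z` closed, `f` continuous on `Z` with values of
absolute value one; then there is a nonvanishing continuous `H : X → ℂ` with `‖H x - f x‖ < 1` on `Z`.
-/

set_option autoImplicit false
set_option linter.unusedSectionVars false

namespace Pool.Agent.Work.MP_e7996b_gt.TN

open Set Topology Filter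

/-- covering dimension at most one (for finite open covers), as in the frozen statements -/
def CovDimLeOne (X : Type*) [TopologicalSpace X] : Prop :=
  ∀ 𝒰 : Finset (Set X), (∀ U ∈ 𝒰, IsOpen U) → ⋃₀ (𝒰 : Set (Set X)) = Set.univ →
    ∃ 𝒱 : Finset (Set X), (∀ V ∈ 𝒱, IsOpen V ∧ ∃ U ∈ 𝒰, V ⊆ U) ∧
      ⋃₀ (𝒱 : Set (Set X)) = Set.univ ∧
      ∀ x : X, ∀ V₁ ∈ 𝒱, ∀ V₂ ∈ 𝒱, ∀ V₃ ∈ 𝒱,
        x ∈ V₁ → x ∈ V₂ → x ∈ V₃ → V₁ = V₂ ∨ V₁ = V₃ ∨ V₂ = V₃

/-- the set of points not on a real line through 0 is dense -/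
theorem dense_off_line {w : ℂ} (hw : w ≠ 0) : Dense {z : ℂ | (z * (starRingEnd ℂ) w).im ≠ 0} := by
  rw [Metric.dense_iff]
  intro z r hr
  by_cases hz : (z * (starRingEnd ℂ) w).im = 0
  · have hn : 0 < ‖w‖ := norm_pos_iff.2 hw
    refine ⟨z + ((r / (2 * ‖w‖) : ℝ) : ℂ) * (Complex.I * w), ?_, ?_⟩
    · rw [Metric.mem_ball, dist_eq_norm, add_sub_cancel_left, norm_mul, norm_mul, Complex.norm_I, one_mul,
        Complex.norm_real, Real.norm_of_nonneg (by positivity)]
      have : r / (2 * ‖w‖) * ‖w‖ = r / 2 := by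
        field_simp
      rw [this]
      linarith
    · show ((z + ((r / (2 * ‖w‖) : ℝ) : ℂ) * (Complex.I * w)) * (starRingEnd ℂ) w).im ≠ 0
      have h1 : (z + ((r / (2 * ‖w‖) : ℝ) : ℂ) * (Complex.I * w)) * (starRingEnd ℂ) w =
          z * (starRingEnd ℂ) w + ((r / (2 * ‖w‖) * Complex.normSq w : ℝ) : ℂ) * Complex.I := by
        push_cast
        rw [← Complex.mul_conj]
        ring
      rw [h1, Complex.add_im, hz, zero_add, Complex.mul_I_im, Complex.ofReal_re]
      have h2 : 0 < Complex.normSq w := Complex.normSq_pos.2 hw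
      positivity
  · exact ⟨z, Metric.mem_ball_self hr, hz⟩

theorem isOpen_off_line (w : ℂ) : IsOpen {z : ℂ | (z * (starRingEnd ℂ) w).im ≠ 0} :=
  isOpen_ne_fun (Complex.continuous_im.comp (continuous_id.mul continuous_const)) continuous_const

open scoped Classical in
/-- generic points near given ones -/
theorem exists_generic {ι : Type*} (S : Finset ι) (c : ι → ℂ) {r : ℝ} (hr : 0 < r) :
    ∃ w : ι → ℂ, ∀ i ∈ S, ‖w i - c i‖ < r ∧ w i ≠ 0 ∧
      ∀ j ∈ S, i ≠ j → (w i * (starRingEnd ℂ) (w j)).im ≠ 0 := by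
  induction S using Finset.induction_on with
  | empty => exact ⟨fun _ => 0, fun i hi => absurd hi (Finset.notMem_empty i)⟩
  | insert a S ha ih =>
    obtain ⟨w, hw⟩ := ih
    have hT : (insert (1 : ℂ) (w '' (S : Set ι))).Countable :=
      (((Finset.finite_toSet S).image w).insert 1).countable
    have hd := dense_biInter_of_isOpen (S := insert (1 : ℂ) (w '' (S : Set ι)))
      (f := fun v : ℂ => {z : ℂ | (z * (starRingEnd ℂ) v).im ≠ 0}) (fun v _ => isOpen_off_line v) hT
      (fun v hv => by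
        refine dense_off_line ?_
        rcases hv with rfl | ⟨j, hj, rfl⟩
        · exact one_ne_zero
        · exact (hw j hj).2.1)
    obtain ⟨z, hz1, hz2⟩ := (Metric.dense_iff.1 hd) (c a) r hr
    rw [mem_iInter₂] at hz2
    have hz0 : z ≠ 0 := by
      rintro rfl
      have := hz2 1 (mem_insert _ _)
      simp at this
    have hzj : ∀ j ∈ S, (z * (starRingEnd ℂ) (w j)).im ≠ 0 := fun j hj =>
      hz2 (w j) (mem_insert_of_mem _ ⟨j, hj, rfl⟩)
    have hupd : ∀ j ∈ S, Function.update w a z j = w j := by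
      intro j hj
      refine Function.update_of_ne ?_ _ _
      rintro rfl
      exact ha hj
    refine ⟨Function.update w a z, fun i hi => ?_⟩
    rcases Finset.mem_insert.1 hi with hia | hiS
    · rw [hia, Function.update_self]
      refine ⟨by rwa [Metric.mem_ball, dist_eq_norm] at hz1, hz0, fun j hj hij => ?_⟩
      rcases Finset.mem_insert.1 hj with hja | hjS
      · exact absurd hja.symm hij
      · rw [hupd j hjS]
        exact hzj j hjS
    · rw [hupd i hiS]
      refine ⟨(hw i hiS).1, (hw i hiS).2.1, fun j hj hij => ?_⟩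
      rcases Finset.mem_insert.1 hj with hja | hjS
      · rw [hja, Function.update_self]
        have h1 := hzj i hiS
        have h2 : (w i * (starRingEnd ℂ) z).im = -(z * (starRingEnd ℂ) (w i)).im := by
          rw [← Complex.conj_im, map_mul, Complex.conj_conj, mul_comm]
        rw [h2]
        exact neg_ne_zero.2 h1
      · rw [hupd j hjS]
        exact (hw i hiS).2.2 j hjS hij

open scoped Classical in
theorem exists_ext {X : Type*} [MetricSpace X] [CompactSpace X] (hX : CovDimLeOne X) {Z : Set X}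
    (hZ : IsClosed Z) {f : X → ℂ} (hf : ContinuousOn f Z) :
    ∃ H : X → ℂ, Continuous H ∧ (∀ x, H x ≠ 0) ∧ ∀ x ∈ Z, ‖H x - f x‖ < 1 := by
  obtain ⟨F, hF⟩ := ContinuousMap.exists_restrict_eq hZ (⟨fun x => f x, continuousOn_iff_continuous_domRestrict.1 hf⟩ : C(Z, ℂ))
  have hFf : ∀ x ∈ Z, F x = f x := fun x hx => DFunLike.congr_fun hF ⟨x, hx⟩
  have huc := CompactSpace.uniformContinuous_of_continuous F.continuous
  rw [Metric.uniformContinuous_iff] at huc
  obtain ⟨η, hη, hu⟩ := huc (1 / 4) (by norm_num)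
  obtain ⟨t, -, htf, htc⟩ := (isCompact_univ (X := X)).finite_cover_balls (half_pos hη)
  obtain ⟨𝒱, hV1, hV2, hV3⟩ := hX (htf.toFinset.image fun x => Metric.ball x (η / 2))
    (by
      intro U hU
      obtain ⟨x, -, rfl⟩ := Finset.mem_image.1 hU
      exact Metric.isOpen_ball)
    (by
      refine eq_univ_of_forall fun x => ?_
      obtain ⟨y, hy, hxy⟩ := mem_iUnion₂.1 (htc (mem_univ x))
      exact ⟨_, by
        rw [Finset.coe_image]
        exact ⟨y, by simpa using hy, rfl⟩, hxy⟩)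
  obtain ⟨φ, hφ⟩ := PartitionOfUnity.exists_isSubordinate (X := X) (s := univ) isClosed_univ
    (fun V : 𝒱 => (V : Set X)) (fun V => (hV1 _ V.2).1) (by
      intro x _
      have hx : x ∈ ⋃₀ (𝒱 : Set (Set X)) := by rw [hV2]; trivial
      obtain ⟨V, hV, hxV⟩ := hx
      exact mem_iUnion.2 ⟨⟨V, hV⟩, hxV⟩)
  have hmem : ∀ (V : 𝒱) (x : X), φ V x ≠ 0 → x ∈ (V : Set X) := fun V x h =>
    hφ V (subset_tsupport _ h)
  have hdist : ∀ (V : 𝒱) (x y : X), x ∈ (V : Set X) → y ∈ (V : Set X) → dist (F x) (F y) < 1 / 4 := by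
    intro V x y hx hy
    obtain ⟨U, hU, hVU⟩ := (hV1 _ V.2).2
    obtain ⟨z, -, rfl⟩ := Finset.mem_image.1 hU
    have h1 := hVU hx
    have h2 := hVU hy
    rw [Metric.mem_ball] at h1 h2
    refine hu (lt_of_le_of_lt (dist_triangle_right x y z) ?_)
    linarith
  let c : 𝒱 → ℂ := fun V => if h : (V : Set X).Nonempty then F h.some else 0
  have hc : ∀ (V : 𝒱) (x : X), x ∈ (V : Set X) → ‖F x - c V‖ < 1 / 4 := by
    intro V x hx
    have h : (V : Set X).Nonempty := ⟨x, hx⟩
    have h1 : c V = F h.some := dif_pos h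
    rw [h1, ← dist_eq_norm]
    exact hdist V _ _ hx h.some_mem
  obtain ⟨w, hw⟩ := exists_generic (Finset.univ : Finset 𝒱) c (r := 1 / 4) (by norm_num)
  have hw1 : ∀ V, ‖w V - c V‖ < 1 / 4 := fun V => (hw V (Finset.mem_univ V)).1
  have hw2 : ∀ V, w V ≠ 0 := fun V => (hw V (Finset.mem_univ V)).2.1
  have hw3 : ∀ V V', V ≠ V' → (w V * (starRingEnd ℂ) (w V')).im ≠ 0 := fun V V' h =>
    (hw V (Finset.mem_univ V)).2.2 V' (Finset.mem_univ V') h
  have hsum : ∀ x, ∑ V, φ V x = 1 := fun x => by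
    rw [← finsum_eq_sum_of_fintype]
    exact φ.sum_eq_one (mem_univ x)
  refine ⟨fun x => ∑ V, (φ V x : ℂ) * w V, ?_, ?_, ?_⟩
  · refine continuous_finsetSum _ fun V _ => ?_
    exact (Complex.continuous_ofReal.comp (φ V).continuous).mul continuous_const
  · intro x hx
    change ∑ V, (φ V x : ℂ) * w V = 0 at hx
    obtain ⟨V0, hV0⟩ : ∃ V, φ V x ≠ 0 := by
      by_contra hn
      push Not at hn
      have := hsum x
      rw [Finset.sum_eq_zero fun V _ => hn V] at this
      exact zero_ne_one this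
    by_cases hex : ∃ V1, V1 ≠ V0 ∧ φ V1 x ≠ 0
    · obtain ⟨V1, h10, hV1x⟩ := hex
      have hz : ∀ V, V ≠ V0 → V ≠ V1 → φ V x = 0 := by
        intro V h0 h1
        by_contra hn
        rcases hV3 x V V.2 V0 V0.2 V1 V1.2 (hmem V x hn) (hmem V0 x hV0) (hmem V1 x hV1x) with h | h | h
        · exact h0 (Subtype.ext h)
        · exact h1 (Subtype.ext h)
        · exact h10 (Subtype.ext h.symm)
      have h2 : ∑ V, (φ V x : ℂ) * w V = ∑ V ∈ ({V0, V1} : Finset 𝒱), (φ V x : ℂ) * w V := by
        symm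
        refine Finset.sum_subset (Finset.subset_univ _) fun V _ hV => ?_
        rw [Finset.mem_insert, Finset.mem_singleton, not_or] at hV
        rw [hz V hV.1 hV.2]
        simp
      rw [h2, Finset.sum_pair h10.symm] at hx
      have h3 := congrArg (fun z : ℂ => (z * (starRingEnd ℂ) (w V0)).im) hx
      simp only [zero_mul, Complex.zero_im, add_mul, Complex.add_im, mul_assoc, Complex.im_ofReal_mul] at h3
      rw [Complex.mul_conj, Complex.ofReal_im, mul_zero, zero_add] at h3
      exact (mul_ne_zero hV1x (hw3 V1 V0 h10)) h3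
    · push Not at hex
      have h2 : ∑ V, (φ V x : ℂ) * w V = (φ V0 x : ℂ) * w V0 := by
        refine Finset.sum_eq_single V0 (fun V _ hV => ?_) (fun h => absurd (Finset.mem_univ _) h)
        rw [hex V hV]
        simp
      rw [h2] at hx
      exact (mul_ne_zero (Complex.ofReal_ne_zero.2 hV0) (hw2 V0)) hx
  · intro x hxZ
    rw [← hFf x hxZ]
    have h1 : (∑ V, (φ V x : ℂ) * w V) - F x = ∑ V, (φ V x : ℂ) * (w V - F x) := by
      simp only [mul_sub, Finset.sum_sub_distrib, ← Finset.sum_mul]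
      rw [← Complex.ofReal_sum, hsum, Complex.ofReal_one, one_mul]
    rw [h1]
    refine lt_of_le_of_lt (norm_sum_le _ _) ?_
    have h2 : ∀ V ∈ (Finset.univ : Finset 𝒱), ‖(φ V x : ℂ) * (w V - F x)‖ ≤ φ V x * (1 / 2) := by
      intro V _
      rw [norm_mul, Complex.norm_real, Real.norm_of_nonneg (φ.nonneg V x)]
      by_cases hV : φ V x = 0
      · rw [hV]; simp
      · refine mul_le_mul_of_nonneg_left ?_ (φ.nonneg V x)
        have h3 := hc V x (hmem V x hV)
        have h4 := hw1 V
        have h5 : w V - F x = (w V - c V) - (F x - c V) := by ring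
        rw [h5]
        refine (norm_sub_le _ _).trans ?_
        linarith
    refine lt_of_le_of_lt (Finset.sum_le_sum h2) ?_
    rw [← Finset.sum_mul, hsum]
    norm_num

/-- `1`-dimensional spaces without essential maps to the circle have no closed subsets with essential maps to
the circle -/
theorem closed_log {X : Type*} [MetricSpace X] [CompactSpace X] (hX : CovDimLeOne X)
    (hlog : ∀ φ : X → ℂ, Continuous φ → (∀ x, φ x ≠ 0) → ∃ g : X → ℂ, Continuous g ∧ ∀ x, φ x = Complex.exp (g x))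
    {Z : Set X} (hZ : IsClosed Z) {f : X → ℂ} (hf : ContinuousOn f Z) (h1 : ∀ x ∈ Z, ‖f x‖ = 1) :
    ∃ g : X → ℂ, ContinuousOn g Z ∧ ∀ x ∈ Z, f x = Complex.exp (g x) := by
  obtain ⟨H, hH, hH0, hHf⟩ := exists_ext hX hZ hf
  obtain ⟨G, hG, hGe⟩ := hlog H hH hH0
  have hf0 : ∀ x ∈ Z, f x ≠ 0 := fun x hx h => by
    have := h1 x hx
    rw [h, norm_zero] at this
    exact zero_ne_one this
  have hslit : ∀ x ∈ Z, H x / f x ∈ Complex.slitPlane := by
    intro x hx
    have h2 : ‖H x / f x - 1‖ < 1 := by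
      rw [div_sub_one (hf0 x hx), norm_div, h1 x hx, div_one]
      exact hHf x hx
    have h3 : |(H x / f x - 1).re| < 1 := lt_of_le_of_lt (Complex.abs_re_le_norm _) h2
    left
    rw [Complex.sub_re, Complex.one_re, abs_lt] at h3
    linarith [h3.1]
  refine ⟨fun x => G x - Complex.log (H x / f x), ?_, ?_⟩
  · exact hG.continuousOn.sub ((hH.continuousOn.div hf hf0).clog hslit)
  · intro x hx
    rw [Complex.exp_sub, ← hGe, Complex.exp_log (div_ne_zero (hH0 x) (hf0 x hx))]
    have h2 := hH0 x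
    have h3 := hf0 x hx
    field_simp

end Pool.Agent.Work.MP_e7996b_gt.TN
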