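import Pool.Agent.Work.MP_e7996b_gt.TN.Gate

/-!
# Escape: the uniform escape property of one-dimensional pseudo-contractible compacta
-/

set_option autoImplicit false
set_option linter.unusedSectionVars false

namespace Pool.Agent.Work.MP_e7996b_gt.TN

open Set Topology Filter

theorem hasLog_of {X C : Type*} [TopologicalSpace X] [CompactSpace X] [TopologicalSpace C]
    [PreconnectedSpace C] {H : X × C → X} {a b : C} {p : X} (hH : Continuous H)
    (ha : ∀ x, H (x, a) = x) (hb : ∀ x, H (x, b) = p) : HasLog X := by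
  intro φ hφ h0
  obtain ⟨g, hg, h1⟩ := exists_log_family (Φ := fun z => φ (H z)) (hφ.comp hH) (fun z => h0 _)
    (a := a) (b := b) (g := fun _ => Complex.log (φ p)) continuous_const
    (fun x => by simp only [hb, Complex.exp_log (h0 p)])
  refine ⟨g, hg, fun x => ?_⟩
  rw [← h1 x, ha]

theorem hasLog_square : HasLog Sq := by
  refine hasLog_of (C := unitInterval) (H := fun z : Sq × unitInterval => (z.2 * z.1.1, z.2 * z.1.2))
    (a := 1) (b := 0) (p := (0, 0)) ?_ ?_ ?_
  · exact (continuous_snd.mul (continuous_fst.comp continuous_fst)).prodMk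
      (continuous_snd.mul (continuous_snd.comp continuous_fst))
  · intro x
    simp
  · intro x
    simp

/-- a function with zeros only over the `δ`-close pairs, positive at the trapped point, negative on the boundary -/
theorem exists_sep {N : Set Sq} (hN : IsClosed N) {z0 : Sq} (hz0 : z0 ∈ N)
    (htr : ∀ K : Set Sq, IsConnected K → z0 ∈ K → K ⊆ N → (K ∩ bd).Nonempty → False) :
    ∃ k : Sq → ℝ, Continuous k ∧ 0 < k z0 ∧ (∀ z ∈ bd, k z < 0) ∧ ∀ z, k z = 0 → z ∉ N := by
  obtain ⟨M0, M1, hM0, hM1, hd, hun, h0, h1⟩ := split (Y := N) (E0 := {z0}) (E1 := N ∩ bd)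
    hN.isCompact isClosed_singleton (hN.inter isClosed_bd) (singleton_subset_iff.2 hz0) inter_subset_left (by
      rintro Q hQN hQ hQc ⟨x, hx, rfl⟩ ⟨y, hy, -, hyb⟩
      exact htr Q hQc hx hQN ⟨y, hy, hyb⟩)
  have hz0M : z0 ∈ M0 := h0 rfl
  have hbd0 : (0 : Sq) ∈ bd := Or.inl rfl
  have hd2 : Disjoint M0 (M1 ∪ bd) := by
    rw [disjoint_union_right]
    refine ⟨hd, ?_⟩
    rw [disjoint_left]
    intro z hz hzb
    have hzN : z ∈ N := by rw [← hun]; exact Or.inl hz
    exact disjoint_left.1 hd hz (h1 ⟨hzN, hzb⟩)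
  have hcl : IsClosed (M1 ∪ bd) := hM1.union isClosed_bd
  have pos0 : ∀ z ∈ M0, 0 < Metric.infDist z (M1 ∪ bd) - Metric.infDist z M0 := by
    intro z hz
    rw [Metric.infDist_zero_of_mem hz, sub_zero]
    exact (hcl.notMem_iff_infDist_pos ⟨0, Or.inr hbd0⟩).1 (disjoint_left.1 hd2 hz)
  have neg1 : ∀ z ∈ M1 ∪ bd, Metric.infDist z (M1 ∪ bd) - Metric.infDist z M0 < 0 := by
    intro z hz
    rw [Metric.infDist_zero_of_mem hz, zero_sub, neg_lt_zero]
    exact (hM0.notMem_iff_infDist_pos ⟨z0, hz0M⟩).1 (disjoint_right.1 hd2 hz)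
  refine ⟨fun z => Metric.infDist z (M1 ∪ bd) - Metric.infDist z M0,
    (Metric.continuous_infDist_pt _).sub (Metric.continuous_infDist_pt _), pos0 z0 hz0M,
    fun z hz => neg1 z (Or.inr hz), fun z hz hzN => ?_⟩
  rw [← hun] at hzN
  rcases hzN with h | h
  · exact absurd hz (pos0 z h).ne'
  · exact absurd hz (neg1 z (Or.inl h)).ne

/-- the core of the proof -/
theorem core {X C : Type*} [MetricSpace X] [CompactSpace X] [TopologicalSpace C]
    [PreconnectedSpace C] (hX : CovDimLeOne X) {H : X × C → X} {a b : C} {p : X} (hH : Continuous H)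
    (ha : ∀ x, H (x, a) = x) (hb : ∀ x, H (x, b) = p) {ε δ : ℝ} (hε : 0 < ε)
    (hδ : ∀ x y : X, dist x y < δ → ∀ c, dist (H (x, c)) (H (y, c)) < ε / 3)
    {α β : unitInterval → X} (hα : Continuous α) (hαi : Function.Injective α) (hβ : Continuous β)
    (hβi : Function.Injective β) {s t : unitInterval} (hs0 : 0 < s) (hs1 : s < 1) (ht0 : 0 < t) (ht1 : t < 1)
    (hst : ε ≤ dist (α s) (β t)) {k : Sq → ℝ} (hk : Continuous k) (hkst : 0 < k (s, t))
    (hkb : ∀ z ∈ bd, k z < 0) (hk0 : ∀ z : Sq, k z = 0 → dist (α z.1) (β z.2) < δ) : False := by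
  have hlog : HasLog X := hasLog_of hH ha hb
  have hε3 : 0 < ε / 3 := by positivity
  obtain ⟨κA, hκA, hAn, hAp, hA0, hAz⟩ := exists_gate hX hlog hα hαi (s := s) hε3
  obtain ⟨κB, hκB, hBn, hBp, hB0, hBz⟩ := exists_gate hX hlog hβ hβi (s := t) hε3
  let L : Set Sq := {z | k z = 0}
  have hL : IsClosed L := isClosed_eq hk continuous_const
  have : CompactSpace L := isCompact_iff_compactSpace.1 hL.isCompact
  let Φ : L × C → ℂ := fun w => (κA (H (α w.1.1.1, w.2)) : ℂ) + (κB (H (β w.1.1.2, w.2)) : ℂ) * Complex.I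
  have hΦ : Continuous Φ := by
    have e1 : Continuous fun w : L × C => H (α w.1.1.1, w.2) :=
      hH.comp ((hα.comp (continuous_fst.comp (continuous_subtype_val.comp continuous_fst))).prodMk
        continuous_snd)
    have e2 : Continuous fun w : L × C => H (β w.1.1.2, w.2) :=
      hH.comp ((hβ.comp (continuous_snd.comp (continuous_subtype_val.comp continuous_fst))).prodMk
        continuous_snd)
    exact (Complex.continuous_ofReal.comp (hκA.comp e1)).add
      ((Complex.continuous_ofReal.comp (hκB.comp e2)).mul continuous_const)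
  have hΦ0 : ∀ w, Φ w ≠ 0 := by
    intro w hw
    have h1 := congrArg Complex.re hw
    have h2 := congrArg Complex.im hw
    simp only [Φ, Complex.add_re, Complex.ofReal_re, Complex.mul_I_re, Complex.ofReal_im, neg_zero, add_zero,
      Complex.zero_re] at h1
    simp only [Φ, Complex.add_im, Complex.ofReal_im, Complex.mul_I_im, Complex.ofReal_re, zero_add,
      Complex.zero_im] at h2
    have h3 := hAz _ h1
    have h4 := hBz _ h2
    have h5 := hδ _ _ (hk0 w.1.1 w.1.2) w.2
    have h6 := dist_triangle4 (α s) (H (α w.1.1.1, w.2)) (H (β w.1.1.2, w.2)) (β t)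
    rw [dist_comm] at h3
    linarith
  obtain ⟨g', hg', hge'⟩ := exists_log_family hΦ hΦ0 (a := a) (b := b)
    (g := fun _ => Complex.log ((κA p : ℂ) + (κB p : ℂ) * Complex.I)) continuous_const (fun x => by
      have h1 : Φ (x, b) = (κA p : ℂ) + (κB p : ℂ) * Complex.I := by
        simp only [Φ, hb]
      rw [← h1, Complex.exp_log (hΦ0 _)])
  obtain ⟨G, hG⟩ := ContinuousMap.exists_restrict_eq hL (⟨g', hg'⟩ : C(L, ℂ))
  have hGg : ∀ z : L, G z = g' z := fun z => DFunLike.congr_fun hG z
  let A : Sq → ℂ := fun z => (κA (α z.1) : ℂ) + (κB (β z.2) : ℂ) * Complex.I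
  have hA : Continuous A :=
    (Complex.continuous_ofReal.comp (hκA.comp (hα.comp continuous_fst))).add
      ((Complex.continuous_ofReal.comp (hκB.comp (hβ.comp continuous_snd))).mul continuous_const)
  have hAre : ∀ z, (A z).re = κA (α z.1) := fun z => by
    simp only [A, Complex.add_re, Complex.ofReal_re, Complex.mul_I_re, Complex.ofReal_im, neg_zero, add_zero]
  have hAim : ∀ z, (A z).im = κB (β z.2) := fun z => by
    simp only [A, Complex.add_im, Complex.ofReal_im, Complex.mul_I_im, Complex.ofReal_re, zero_add]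
  classical
  let Ψ : Sq → ℂ := fun z => if 0 ≤ k z then Complex.exp (G z) else A z
  have hΨ : Continuous Ψ := by
    refine Continuous.if_le (Complex.continuous_exp.comp G.continuous) hA continuous_const hk ?_
    intro z hz
    have h1 := hGg ⟨z, hz.symm⟩
    have h2 := hge' ⟨z, hz.symm⟩
    show Complex.exp (G z) = A z
    rw [h1, ← h2]
    simp only [Φ, A, ha]
  have hΨ0 : ∀ z, Ψ z ≠ 0 := by
    intro z
    by_cases hz : 0 ≤ k z
    · show (if 0 ≤ k z then Complex.exp (G z) else A z) ≠ 0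
      rw [if_pos hz]
      exact Complex.exp_ne_zero _
    · show (if 0 ≤ k z then Complex.exp (G z) else A z) ≠ 0
      rw [if_neg hz]
      intro h0
      have h1 := hAre z
      have h2 := hAim z
      rw [h0, Complex.zero_re] at h1
      rw [h0, Complex.zero_im] at h2
      have h3 : z.1 = s := by
        rcases lt_trichotomy z.1 s with h | h | h
        · exact absurd h1.symm (hAn _ h).ne
        · exact h
        · exact absurd h1.symm (hAp _ h).ne'
      have h4 : z.2 = t := by
        rcases lt_trichotomy z.2 t with h | h | h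
        · exact absurd h2.symm (hBn _ h).ne
        · exact h
        · exact absurd h2.symm (hBp _ h).ne'
      have h5 : z = (s, t) := Prod.ext h3 h4
      rw [h5] at hz
      exact hz hkst.le
  obtain ⟨g, hg, hge⟩ := hasLog_square Ψ hΨ hΨ0
  have hΨb : ∀ z ∈ bd, Ψ z = A z := fun z hz => if_neg (not_le.2 (hkb z hz))
  refine square_no_log hs0 hs1 ht0 ht1 hg hge ?_ ?_ ?_ ?_ ?_ ?_
  · intro z hz h
    rw [hΨb z hz, hAre]
    exact hAp _ h
  · intro z hz h
    rw [hΨb z hz, hAre]
    exact hAn _ h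
  · intro z hz h
    rw [hΨb z hz, hAre, h]
    exact hA0
  · intro z hz h
    rw [hΨb z hz, hAim]
    exact hBp _ h
  · intro z hz h
    rw [hΨb z hz, hAim]
    exact hBn _ h
  · intro z hz h
    rw [hΨb z hz, hAim, h]
    exact hB0

/-- **Uniform escape property.** -/
theorem escape {X C : Type*} [MetricSpace X] [CompactSpace X] [TopologicalSpace C] [CompactSpace C]
    [PreconnectedSpace C] (hX : CovDimLeOne X) {H : X × C → X} {a b : C} {p : X} (hH : Continuous H)
    (ha : ∀ x, H (x, a) = x) (hb : ∀ x, H (x, b) = p) {ε : ℝ} (hε : 0 < ε) :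
    ∃ δ > 0, ∀ α β : unitInterval → X, Continuous α → Function.Injective α → Continuous β →
      Function.Injective β → ∀ s t, ε ≤ dist (α s) (β t) →
        ∃ K : Set Sq, IsConnected K ∧ (s, t) ∈ K ∧ (∀ z ∈ K, δ ≤ dist (α z.1) (β z.2)) ∧
          (K ∩ bd).Nonempty := by
  -- uniform continuity
  obtain ⟨δ', hδ', hδ⟩ : ∃ δ' > 0, ∀ x y : X, dist x y < δ' → ∀ c, dist (H (x, c)) (H (y, c)) < ε / 3 := by
    let F : C(X, C(C, X)) := ContinuousMap.curry ⟨H, hH⟩
    have huc := CompactSpace.uniformContinuous_of_continuous F.continuous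
    rw [Metric.uniformContinuous_iff] at huc
    obtain ⟨δ', hδ', h⟩ := huc (ε / 3) (by positivity)
    refine ⟨δ', hδ', fun x y hxy c => lt_of_le_of_lt ?_ (h hxy)⟩
    exact ContinuousMap.dist_apply_le_dist (f := F x) (g := F y) c
  refine ⟨min δ' ε, lt_min hδ' hε, fun α β hα hαi hβ hβi s t hst => ?_⟩
  have hstN : min δ' ε ≤ dist (α s) (β t) := (min_le_right _ _).trans hst
  by_cases hb0 : ((s, t) : Sq) ∈ bd
  · refine ⟨{(s, t)}, isConnected_singleton, rfl, ?_, ⟨(s, t), rfl, hb0⟩⟩
    rintro z rfl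
    exact hstN
  have hs0 : 0 < s := pos_of_ne_zero fun h => hb0 (Or.inl h)
  have hs1 : s < 1 := lt_of_le_of_ne s.2.2 fun h => hb0 (Or.inr (Or.inl (Subtype.ext (congrArg Subtype.val h))))
  have ht0 : 0 < t := pos_of_ne_zero fun h => hb0 (Or.inr (Or.inr (Or.inl h)))
  have ht1 : t < 1 := lt_of_le_of_ne t.2.2 fun h => hb0 (Or.inr (Or.inr (Or.inr (Subtype.ext (congrArg Subtype.val h)))))
  by_contra hcon
  let N : Set Sq := {z | min δ' ε ≤ dist (α z.1) (β z.2)}
  have hN : IsClosed N :=
    isClosed_le continuous_const ((hα.comp continuous_fst).dist (hβ.comp continuous_snd))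
  obtain ⟨k, hk, hkst, hkb, hk0⟩ := exists_sep hN (z0 := (s, t)) hstN (fun K hK hz hKN hKb =>
    hcon ⟨K, hK, hz, fun z hz => hKN hz, hKb⟩)
  refine core hX hH ha hb hε hδ hα hαi hβ hβi hs0 hs1 ht0 ht1 hst hk hkst hkb ?_
  intro z hz
  exact lt_of_lt_of_le (not_le.1 (hk0 z hz)) (min_le_left _ _)

end Pool.Agent.Work.MP_e7996b_gt.TN
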