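import Pool.Agent.Work.MP_e7996b_gt.TN.Ang
import Pool.Agent.Work.MP_e7996b_gt.TN.DimExt

/-!
# Gate: a small ball about an interior point of an arc separates the two sides of the arc

`split`: if no connected subset of the compact set `Y` meets both closed sets `E0`, `E1` then `Y` is the union of
two disjoint closed sets containing `E0`, `E1`.
`no_cross`: in a compact metric space of dimension at most one in which nonvanishing complex functions have
logarithms, no closed connected set meets `α [0, s)` and `α (s, 1]` and misses `α s`, for an arc `α`.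
`exists_gate`: the gate function of an arc.
-/

set_option autoImplicit false
set_option linter.unusedSectionVars false

namespace Pool.Agent.Work.MP_e7996b_gt.TN

open Set Topology Filter

theorem split {X : Type*} [TopologicalSpace X] [T2Space X] {Y E0 E1 : Set X} (hY : IsCompact Y)
    (hE0 : IsClosed E0) (hE1 : IsClosed E1) (h0 : E0 ⊆ Y) (h1 : E1 ⊆ Y)
    (hc : ∀ Q ⊆ Y, IsClosed Q → IsConnected Q → (Q ∩ E0).Nonempty → (Q ∩ E1).Nonempty → False) :
    ∃ Y0 Y1 : Set X, IsClosed Y0 ∧ IsClosed Y1 ∧ Disjoint Y0 Y1 ∧ Y0 ∪ Y1 = Y ∧ E0 ⊆ Y0 ∧ E1 ⊆ Y1 := by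
  have : CompactSpace Y := isCompact_iff_compactSpace.1 hY
  let A0 : Set Y := Subtype.val ⁻¹' E0
  let A1 : Set Y := Subtype.val ⁻¹' E1
  have hA0 : IsClosed A0 := hE0.preimage continuous_subtype_val
  have hA1 : IsClosed A1 := hE1.preimage continuous_subtype_val
  have hm : Continuous (ConnectedComponents.mk : Y → ConnectedComponents Y) := ConnectedComponents.continuous_coe
  have hB0 : IsClosed (ConnectedComponents.mk '' A0) := (hA0.isCompact.image hm).isClosed
  have hB1 : IsClosed (ConnectedComponents.mk '' A1) := (hA1.isCompact.image hm).isClosed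
  have hdisj : ConnectedComponents.mk '' A0 ⊆ (ConnectedComponents.mk '' A1)ᶜ := by
    rintro _ ⟨x, hx, rfl⟩ ⟨y, hy, hxy⟩
    have h2 : connectedComponent y = connectedComponent x := ConnectedComponents.coe_eq_coe.1 hxy
    have h3 : IsConnected (Subtype.val '' connectedComponent x : Set X) :=
      isConnected_connectedComponent.image _ continuous_subtype_val.continuousOn
    have h4 : IsClosed (Subtype.val '' connectedComponent x : Set X) :=
      (isClosed_connectedComponent.isCompact.image continuous_subtype_val).isClosed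
    refine hc _ ?_ h4 h3 ⟨x, ⟨x, mem_connectedComponent, rfl⟩, hx⟩
      ⟨y, ⟨y, ?_, rfl⟩, hy⟩
    · rintro _ ⟨z, -, rfl⟩
      exact z.2
    · rw [← h2]
      exact mem_connectedComponent
  obtain ⟨K, hK, hK0, hK1⟩ := exists_clopen_of_closed_subset_open hB0 hB1.isOpen_compl hdisj
  have hU : IsClopen (ConnectedComponents.mk ⁻¹' K : Set Y) := hK.preimage hm
  refine ⟨Subtype.val '' (ConnectedComponents.mk ⁻¹' K : Set Y),
    Subtype.val '' (ConnectedComponents.mk ⁻¹' K : Set Y)ᶜ, ?_, ?_, ?_, ?_, ?_, ?_⟩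
  · exact (hU.isClosed.isCompact.image continuous_subtype_val).isClosed
  · exact (hU.compl.isClosed.isCompact.image continuous_subtype_val).isClosed
  · rw [disjoint_image_iff Subtype.val_injective]
    exact disjoint_compl_right
  · rw [← image_union, union_compl_self, image_univ, Subtype.range_coe]
  · intro x hx
    exact ⟨⟨x, h0 hx⟩, hK0 ⟨⟨x, h0 hx⟩, hx, rfl⟩, rfl⟩
  · intro x hx
    refine ⟨⟨x, h1 hx⟩, fun h => ?_, rfl⟩
    exact hK1 h ⟨⟨x, h1 hx⟩, hx, rfl⟩

/-- every continuous nonvanishing complex function has a continuous logarithm -/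
def HasLog (X : Type*) [TopologicalSpace X] : Prop :=
  ∀ φ : X → ℂ, Continuous φ → (∀ x, φ x ≠ 0) → ∃ g : X → ℂ, Continuous g ∧ ∀ x, φ x = Complex.exp (g x)

theorem no_cross {X : Type*} [MetricSpace X] [CompactSpace X] (hX : CovDimLeOne X) (hlog : HasLog X)
    {α : unitInterval → X} (hα : Continuous α) (hinj : Function.Injective α) {s r1 r2 : unitInterval}
    (h1 : r1 < s) (h2 : s < r2) {Q : Set X} (hQ : IsClosed Q) (hQc : IsPreconnected Q) (hs : α s ∉ Q)
    (hr1 : α r1 ∈ Q) (hr2 : α r2 ∈ Q) : False := by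
  -- the nearest parameters
  have hT : IsClosed (α ⁻¹' Q) := hQ.preimage hα
  obtain ⟨s0, ⟨hs0s, hs0Q⟩, hs0⟩ := ((isClosed_Iic (a := s)).isCompact.inter_right hT).exists_isGreatest ⟨r1, h1.le, hr1⟩
  obtain ⟨s1, ⟨hs1s, hs1Q⟩, hs1⟩ := ((isClosed_Ici (a := s)).isCompact.inter_right hT).exists_isLeast ⟨r2, h2.le, hr2⟩
  have hs0s : s0 < s := lt_of_le_of_ne hs0s fun h => hs (h ▸ hs0Q)
  have hs1s : s < s1 := lt_of_le_of_ne hs1s fun h => hs (h ▸ hs1Q)
  have hlt : s0 < s1 := hs0s.trans hs1s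
  -- a coordinate
  have hemb : IsClosedEmbedding α := hα.isClosedEmbedding hinj
  obtain ⟨ρ, hρ⟩ := ContinuousMap.exists_extension' hemb (⟨fun r => (r : ℝ), continuous_subtype_val⟩ : C(unitInterval, ℝ))
  have hρα : ∀ r, ρ (α r) = (r : ℝ) := fun r => congrFun hρ r
  have hltr : (s0 : ℝ) < s1 := hlt
  have hpos : (0 : ℝ) < s1 - s0 := sub_pos.2 hltr
  classical
  let w : ℝ → ℂ := fun u => Complex.exp ((2 * Real.pi * ((u - s0) / (s1 - s0)) : ℝ) * Complex.I)
  have hw : Continuous w := by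
    refine Complex.continuous_exp.comp ((Complex.continuous_ofReal.comp ?_).mul continuous_const)
    fun_prop
  have hw0 : w s0 = 1 := by
    show Complex.exp _ = 1
    rw [sub_self, zero_div, mul_zero, Complex.ofReal_zero, zero_mul, Complex.exp_zero]
  have hw1 : w s1 = 1 := by
    show Complex.exp _ = 1
    rw [div_self hpos.ne', mul_one]
    push_cast
    exact Complex.exp_two_pi_mul_I
  let f : X → ℂ := fun x => if x ∈ Q then 1 else w (ρ x)
  have hfQ : ∀ x ∈ Q, f x = 1 := fun x hx => if_pos hx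
  have hfα : ∀ r ∈ Icc s0 s1, f (α r) = w r := by
    intro r hr
    by_cases hrQ : α r ∈ Q
    · rw [hfQ _ hrQ]
      rcases le_total r s with h | h
      · have : r = s0 := le_antisymm (hs0 ⟨h, hrQ⟩) hr.1
        rw [this, hw0]
      · have : r = s1 := le_antisymm hr.2 (hs1 ⟨h, hrQ⟩)
        rw [this, hw1]
    · show (if α r ∈ Q then 1 else w (ρ (α r))) = _
      rw [if_neg hrQ, hρα]
  have hAc : IsClosed (α '' Icc s0 s1) := (isCompact_Icc.image hα).isClosed
  have hfc : ContinuousOn f (Q ∪ α '' Icc s0 s1) := by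
    refine ContinuousOn.union_of_isClosed ?_ ?_ hQ hAc
    · exact continuousOn_const.congr hfQ
    · refine (hw.comp ρ.continuous).continuousOn.congr ?_
      rintro _ ⟨r, hr, rfl⟩
      show f (α r) = w (ρ (α r))
      rw [hfα r hr, hρα]
  have hnorm : ∀ u, ‖w u‖ = 1 := fun u => Complex.norm_exp_ofReal_mul_I _
  obtain ⟨g, hg, hge⟩ := closed_log hX hlog (hQ.union hAc) hfc (by
    rintro x (hx | ⟨r, hr, rfl⟩)
    · rw [hfQ x hx, norm_one]
    · rw [hfα r hr, hnorm])
  have e1 : g (α s0) = g (α s1) := by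
    refine exp_one_const hQc (hg.mono subset_union_left) (fun z hz => ?_) hs0Q hs1Q
    rw [← hge z (Or.inl hz), hfQ z hz]
  have e2 : g (α s0) - ((2 * Real.pi * (((s0 : ℝ) - s0) / (s1 - s0)) : ℝ) * Complex.I) =
      g (α s1) - ((2 * Real.pi * (((s1 : ℝ) - s0) / (s1 - s0)) : ℝ) * Complex.I) := by
    refine exp_one_const (S := Icc s0 s1)
      (h := fun r : unitInterval => g (α r) - ((2 * Real.pi * (((r : ℝ) - s0) / (s1 - s0)) : ℝ) * Complex.I))
      isPreconnected_Icc ?_ ?_ (left_mem_Icc.2 hlt.le) (right_mem_Icc.2 hlt.le)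
    · refine ContinuousOn.sub ?_ ?_
      · exact hg.comp hα.continuousOn fun r hr => Or.inr ⟨r, hr, rfl⟩
      · refine Continuous.continuousOn ((Complex.continuous_ofReal.comp ?_).mul continuous_const)
        fun_prop
    · intro r hr
      rw [Complex.exp_sub, ← hge _ (Or.inr ⟨r, hr, rfl⟩), hfα r hr]
      exact div_self (Complex.exp_ne_zero _)
  rw [e1, sub_self, zero_div, mul_zero, Complex.ofReal_zero, zero_mul, sub_zero, div_self hpos.ne', mul_one] at e2
  have e3 := congrArg Complex.im e2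
  rw [Complex.sub_im, Complex.mul_I_im, Complex.ofReal_re] at e3
  have := Real.pi_pos
  linarith

/-- the gate function of an arc at an interior parameter -/
theorem exists_gate {X : Type*} [MetricSpace X] [CompactSpace X] (hX : CovDimLeOne X) (hlog : HasLog X)
    {α : unitInterval → X} (hα : Continuous α) (hinj : Function.Injective α) {s : unitInterval} {ε : ℝ}
    (hε : 0 < ε) :
    ∃ κ : X → ℝ, Continuous κ ∧ (∀ r < s, κ (α r) < 0) ∧ (∀ r, s < r → 0 < κ (α r)) ∧ κ (α s) = 0 ∧
      ∀ x, κ x = 0 → dist x (α s) < ε := by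
  let Y : Set X := {x | ε ≤ dist x (α s)}
  have hYc : IsClosed Y := isClosed_le continuous_const (continuous_id.dist continuous_const)
  have hsY : α s ∉ Y := by
    show ¬ ε ≤ dist (α s) (α s)
    rw [dist_self]
    exact not_le.2 hε
  have hI0 : IsClosed (α '' Iic s) := (isClosed_Iic.isCompact.image hα).isClosed
  have hI1 : IsClosed (α '' Ici s) := (isClosed_Ici.isCompact.image hα).isClosed
  obtain ⟨Y0, Y1, hY0, hY1, hd, hun, hE0, hE1⟩ := split (Y := Y) (E0 := α '' Iic s ∩ Y)
    (E1 := α '' Ici s ∩ Y) hYc.isCompact (hI0.inter hYc) (hI1.inter hYc) inter_subset_right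
    inter_subset_right (by
      rintro Q hQY hQ hQc ⟨_, hx, ⟨r1, hr1, rfl⟩, hr1Y⟩ ⟨_, hy, ⟨r2, hr2, rfl⟩, hr2Y⟩
      have h1 : r1 < s := lt_of_le_of_ne hr1 fun h => hsY (h ▸ hr1Y)
      have h2 : s < r2 := lt_of_le_of_ne hr2 fun h => hsY (h ▸ hr2Y)
      exact no_cross hX hlog hα hinj h1 h2 hQ hQc.isPreconnected (fun h => hsY (hQY h)) hx hy)
  have hF0 : IsClosed (α '' Iic s ∪ Y0) := hI0.union hY0
  have hF1 : IsClosed (α '' Ici s ∪ Y1) := hI1.union hY1
  have hsF0 : α s ∈ α '' Iic s ∪ Y0 := Or.inl ⟨s, le_refl s, rfl⟩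
  have hsF1 : α s ∈ α '' Ici s ∪ Y1 := Or.inl ⟨s, le_refl s, rfl⟩
  have hy0 : ∀ r, α r ∈ Y0 → r < s := by
    intro r hr
    by_contra hn
    have h1 : α r ∈ Y := by rw [← hun]; exact Or.inl hr
    exact disjoint_left.1 hd hr (hE1 ⟨⟨r, not_lt.1 hn, rfl⟩, h1⟩)
  have hy1 : ∀ r, α r ∈ Y1 → s < r := by
    intro r hr
    by_contra hn
    have h1 : α r ∈ Y := by rw [← hun]; exact Or.inr hr
    exact disjoint_left.1 hd (hE0 ⟨⟨r, not_lt.1 hn, rfl⟩, h1⟩) hr
  refine ⟨fun x => Metric.infDist x (α '' Iic s ∪ Y0) - Metric.infDist x (α '' Ici s ∪ Y1), ?_, ?_, ?_, ?_, ?_⟩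
  · exact (Metric.continuous_infDist_pt _).sub (Metric.continuous_infDist_pt _)
  · intro r hr
    have h1 : Metric.infDist (α r) (α '' Iic s ∪ Y0) = 0 :=
      Metric.infDist_zero_of_mem (Or.inl ⟨r, hr.le, rfl⟩)
    have h2 : 0 < Metric.infDist (α r) (α '' Ici s ∪ Y1) := by
      refine (hF1.notMem_iff_infDist_pos ⟨_, hsF1⟩).1 ?_
      rintro (⟨r', hr', he⟩ | h)
      · have : r' = r := hinj he
        rw [this] at hr'
        exact absurd hr (not_lt.2 hr')
      · exact absurd hr (not_lt.2 (hy1 r h).le)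
    show _ - _ < _
    rw [h1]
    linarith
  · intro r hr
    have h1 : Metric.infDist (α r) (α '' Ici s ∪ Y1) = 0 :=
      Metric.infDist_zero_of_mem (Or.inl ⟨r, hr.le, rfl⟩)
    have h2 : 0 < Metric.infDist (α r) (α '' Iic s ∪ Y0) := by
      refine (hF0.notMem_iff_infDist_pos ⟨_, hsF0⟩).1 ?_
      rintro (⟨r', hr', he⟩ | h)
      · have : r' = r := hinj he
        rw [this] at hr'
        exact absurd hr (not_lt.2 hr')
      · exact absurd hr (not_lt.2 (hy0 r h).le)
    show _ < _ - _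
    rw [h1]
    linarith
  · show _ - _ = _
    rw [Metric.infDist_zero_of_mem hsF0, Metric.infDist_zero_of_mem hsF1, sub_zero]
  · intro x hx
    change _ - _ = _ at hx
    by_contra hn
    have hxY : x ∈ Y := not_lt.1 hn
    have hxY' := hxY
    rw [← hun] at hxY'
    rcases hxY' with h | h
    · have h' : x ∈ α '' Iic s ∪ Y0 := Or.inr h
      rw [Metric.infDist_zero_of_mem h', zero_sub, neg_eq_zero] at hx
      have h3 : x ∈ α '' Ici s ∪ Y1 := (hF1.mem_iff_infDist_zero ⟨_, hsF1⟩).2 hx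
      rcases h3 with h3 | h3
      · exact disjoint_left.1 hd h (hE1 ⟨h3, hxY⟩)
      · exact disjoint_left.1 hd h h3
    · have h' : x ∈ α '' Ici s ∪ Y1 := Or.inr h
      rw [Metric.infDist_zero_of_mem h', sub_zero] at hx
      have h3 : x ∈ α '' Iic s ∪ Y0 := (hF0.mem_iff_infDist_zero ⟨_, hsF0⟩).2 hx
      rcases h3 with h3 | h3
      · exact disjoint_left.1 hd (hE0 ⟨h3, hxY⟩) h
      · exact disjoint_left.1 hd h3 h

end Pool.Agent.Work.MP_e7996b_gt.TN
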