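import Pool.Agent.Work.MP_e7996b_gt.TN.Escape

/-!
# TypeN: continua of type N (with an arc-like limit) do not have the uniform escape property
-/

set_option autoImplicit false
set_option linter.unusedSectionVars false

namespace Pool.Agent.Work.MP_e7996b_gt.TN

open Set Topology Filter

/-- Pseudo-contractible: there are a compact connected space `C` (in the problem `C` is also metric), points
`a`, `b` of `C`, a point `p` of `X` and a continuous `H : X × C → X` with `H (x, a) = x`, `H (x, b) = p`. -/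
def PseudoContractible.{u, v} (X : Type u) [TopologicalSpace X] : Prop :=
  ∃ (C : Type v) (_ : TopologicalSpace C) (_ : CompactSpace C) (_ : ConnectedSpace C) (a b : C) (p : X)
    (H : C(X × C, X)), ∀ x, H (x, a) = x ∧ H (x, b) = p

/-- **Uniform escape property.**  For every `ε > 0` there is `δ > 0` such that for any two arcs `α`, `β` in `X` and
parameters `s`, `t` with `dist (α s) (β t) ≥ ε`, a connected set of pairs `(r, r')` with
`dist (α r) (β r') ≥ δ` contains `(s, t)` and a point of the boundary of the square. -/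
def UniformEscape (X : Type*) [MetricSpace X] : Prop :=
  ∀ ε > 0, ∃ δ > 0, ∀ α β : C(unitInterval, X), Function.Injective α → Function.Injective β →
    ∀ s t, ε ≤ dist (α s) (β t) →
      ∃ K : Set (unitInterval × unitInterval), IsConnected K ∧ (s, t) ∈ K ∧
        (∀ z ∈ K, δ ≤ dist (α z.1) (β z.2)) ∧ ∃ z ∈ K, z.1 = 0 ∨ z.1 = 1 ∨ z.2 = 0 ∨ z.2 = 1

/-- `A` is a compactum with continuous maps `f` onto a subset of `[0, 1]` with `f p = 0`, `f q = 1` and fibres
of arbitrarily small diameter (if `A` is connected: an arc-like continuum with opposite end points `p`, `q`). -/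
structure ArcLikeBetween {X : Type*} [MetricSpace X] (A : Set X) (p q : X) : Prop where
  closed : IsClosed A
  left_mem : p ∈ A
  right_mem : q ∈ A
  maps : ∀ ε > 0, ∃ f : C(A, unitInterval), f ⟨p, left_mem⟩ = 0 ∧ f ⟨q, right_mem⟩ = 1 ∧
    ∀ x y : A, f x = f y → dist x y < ε

/-- **Type N.**  There are `A`, arc-like between `p ≠ q`, and arcs `α n`, `β n` whose limit points lie in `A`, such
that the end points of `α n` tend to `p` and `α n (s n)` tends to `q`, while the end points of `β n` tend to
`q` and `β n (t n)` tends to `p`. -/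
def TypeN (X : Type*) [MetricSpace X] : Prop :=
  ∃ (A : Set X) (p q : X), p ≠ q ∧ ArcLikeBetween A p q ∧
    ∃ (α β : ℕ → C(unitInterval, X)) (s t : ℕ → unitInterval),
      (∀ n, Function.Injective (α n)) ∧ (∀ n, Function.Injective (β n)) ∧
      (∀ η > 0, ∀ᶠ n in atTop, ∀ r, Metric.infDist (α n r) A < η ∧ Metric.infDist (β n r) A < η) ∧
      Tendsto (fun n => α n 0) atTop (𝓝 p) ∧ Tendsto (fun n => α n 1) atTop (𝓝 p) ∧
      Tendsto (fun n => α n (s n)) atTop (𝓝 q) ∧
      Tendsto (fun n => β n 0) atTop (𝓝 q) ∧ Tendsto (fun n => β n 1) atTop (𝓝 q) ∧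
      Tendsto (fun n => β n (t n)) atTop (𝓝 p)

theorem uniformEscape_of.{u, v} {X : Type u} [MetricSpace X] [CompactSpace X] (hX : CovDimLeOne X)
    (h : PseudoContractible.{u, v} X) : UniformEscape X := by
  obtain ⟨C, _, _, _, a, b, p, H, hH⟩ := h
  intro ε hε
  obtain ⟨δ, hδ, hesc⟩ := escape hX H.continuous (fun x => (hH x).1) (fun x => (hH x).2) hε
  refine ⟨δ, hδ, fun α β hα hβ s t hst => ?_⟩
  obtain ⟨K, hK, hmem, hd, z, hz, hzb⟩ := hesc α β α.continuous hα β.continuous hβ s t hst
  exact ⟨K, hK, hmem, hd, z, hz, hzb⟩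

/-- every arc is arc-like between its end points -/
theorem arc_arcLike {X : Type*} [MetricSpace X] (γ : C(unitInterval, X)) (hγ : Function.Injective γ) :
    ArcLikeBetween (range γ) (γ 0) (γ 1) where
  closed := (isCompact_range γ.continuous).isClosed
  left_mem := mem_range_self 0
  right_mem := mem_range_self 1
  maps := by
    intro ε hε
    have hemb : IsEmbedding γ := (γ.continuous.isClosedEmbedding hγ).isEmbedding
    refine ⟨⟨hemb.toHomeomorph.symm, hemb.toHomeomorph.symm.continuous⟩, ?_, ?_, ?_⟩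
    · exact hemb.toHomeomorph.symm_apply_apply 0
    · exact hemb.toHomeomorph.symm_apply_apply 1
    · intro x y hxy
      have : x = y := hemb.toHomeomorph.symm.injective hxy
      rw [this, dist_self]
      exact hε

/-- the clamp -/
private noncomputable def cl (η u : ℝ) : ℝ := max η (min (1 - η) u)

private theorem cl_near {η u : ℝ} (hη : 0 < η) (hη2 : η ≤ 1 / 4) (h0 : 0 ≤ u) (h1 : u ≤ 1) : |u - cl η u| ≤ η := by
  unfold cl
  rw [abs_le]
  rcases le_total (1 - η) u with h | h
  · rw [min_eq_left h, max_eq_right (by linarith)]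
    constructor <;> linarith
  · rw [min_eq_right h]
    rcases le_total η u with h' | h'
    · rw [max_eq_right h']
      constructor <;> linarith
    · rw [max_eq_left h']
      constructor <;> linarith

private theorem cl_ge {η u : ℝ} : η ≤ cl η u := le_max_left _ _

private theorem cl_le {η u : ℝ} (hη2 : η ≤ 1 / 4) : cl η u ≤ 1 - η :=
  max_le (by linarith) (min_le_left _ _)

private theorem cl_low {η u : ℝ} (h : u < η) : cl η u = η := max_eq_left ((min_le_right _ _).trans h.le)

private theorem cl_high {η u : ℝ} (hη2 : η ≤ 1 / 4) (h : 1 - η < u) : cl η u = 1 - η := by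
  unfold cl
  rw [min_eq_left h.le, max_eq_right (by linarith)]

theorem not_typeN {X : Type*} [MetricSpace X] [CompactSpace X] (hX : UniformEscape X) : ¬ TypeN X := by
  rintro ⟨A, p, q, hpq, hA, α, β, s, t, hα, hβ, hlim, hα0, hα1, hαs, hβ0, hβ1, hβt⟩
  have hd : 0 < dist q p := dist_pos.2 hpq.symm
  obtain ⟨δ, hδ, hesc⟩ := hX (dist q p / 2) (by positivity)
  obtain ⟨f, hfp, hfq, hff⟩ := hA.maps δ hδ
  obtain ⟨F, hF⟩ := ContinuousMap.exists_restrict_eq hA.closed
    (⟨fun x => (f x : ℝ), continuous_subtype_val.comp f.continuous⟩ : C(A, ℝ))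
  have hFf : ∀ x : A, F x = (f x : ℝ) := fun x => DFunLike.congr_fun hF x
  -- the coordinate with values in `[0, 1]`
  let u : X → ℝ := fun x => max 0 (min 1 (F x))
  have hu : Continuous u := continuous_const.max (continuous_const.min F.continuous)
  have hu0 : ∀ x, 0 ≤ u x := fun x => le_max_left _ _
  have hu1 : ∀ x, u x ≤ 1 := fun x => max_le zero_le_one (min_le_left _ _)
  have huf : ∀ x : A, u x = (f x : ℝ) := by
    intro x
    show max 0 (min 1 (F x)) = _
    rw [hFf, min_eq_right (f x).2.2, max_eq_right (f x).2.1]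
  have hup : u p = 0 := by rw [huf ⟨p, hA.left_mem⟩, hfp]; rfl
  have huq : u q = 1 := by rw [huf ⟨q, hA.right_mem⟩, hfq]; rfl
  -- a positive number `m`
  have hAne : A.Nonempty := ⟨p, hA.left_mem⟩
  obtain ⟨m, hm, hmle⟩ : ∃ m : ℝ, 0 < m ∧ ∀ x y : X, δ ≤ dist x y →
      m ≤ max (max (Metric.infDist x A) (Metric.infDist y A)) |u x - u y| := by
    have hKc : IsCompact {z : X × X | δ ≤ dist z.1 z.2} :=
      (isClosed_le continuous_const (continuous_fst.dist continuous_snd)).isCompact
    have hcont : Continuous fun z : X × X =>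
        max (max (Metric.infDist z.1 A) (Metric.infDist z.2 A)) |u z.1 - u z.2| :=
      (((Metric.continuous_infDist_pt A).comp continuous_fst).max
        ((Metric.continuous_infDist_pt A).comp continuous_snd)).max
        (((hu.comp continuous_fst).sub (hu.comp continuous_snd)).abs)
    obtain ⟨m, hm, hmle⟩ := hKc.exists_forall_le' (a := 0) hcont.continuousOn (by
      rintro ⟨x, y⟩ hxy
      by_contra hn
      rw [not_lt, max_le_iff, max_le_iff] at hn
      obtain ⟨⟨h1, h2⟩, h3⟩ := hn
      have hx : x ∈ A := (hA.closed.mem_iff_infDist_zero hAne).2 (le_antisymm h1 Metric.infDist_nonneg)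
      have hy : y ∈ A := (hA.closed.mem_iff_infDist_zero hAne).2 (le_antisymm h2 Metric.infDist_nonneg)
      have h4 : u x = u y := sub_eq_zero.1 (abs_eq_zero.1 (le_antisymm h3 (abs_nonneg _)))
      rw [huf ⟨x, hx⟩, huf ⟨y, hy⟩] at h4
      have h5 := hff ⟨x, hx⟩ ⟨y, hy⟩ (Subtype.ext h4)
      exact absurd h5 (not_lt.2 hxy))
    exact ⟨m, hm, fun x y h => hmle (x, y) h⟩
  obtain ⟨η, hη, hηm, hη4⟩ : ∃ η : ℝ, 0 < η ∧ 2 * η < m ∧ η ≤ 1 / 4 := by
    refine ⟨min (m / 4) (1 / 4), by positivity, ?_, min_le_right _ _⟩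
    have := min_le_left (m / 4) (1 / 4 : ℝ)
    linarith
  -- choose `n`
  have tlow : ∀ {x : ℕ → X}, Tendsto x atTop (𝓝 p) → ∀ᶠ n in atTop, u (x n) < η := by
    intro x hx
    have h1 : Tendsto (fun n => u (x n)) atTop (𝓝 0) := by
      rw [← hup]
      exact (hu.tendsto p).comp hx
    exact h1.eventually_lt_const hη
  have thigh : ∀ {x : ℕ → X}, Tendsto x atTop (𝓝 q) → ∀ᶠ n in atTop, 1 - η < u (x n) := by
    intro x hx
    have h1 : Tendsto (fun n => u (x n)) atTop (𝓝 1) := by
      rw [← huq]
      exact (hu.tendsto q).comp hx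
    exact h1.eventually_const_lt (by linarith)
  have tdist : ∀ᶠ n in atTop, dist q p / 2 < dist (α n (s n)) (β n (t n)) :=
    (hαs.dist hβt).eventually_const_lt (by linarith)
  obtain ⟨n, hn1, hn2, hn3, hn4, hn5, hn6, hn7, hn8⟩ :=
    ((hlim η hη).and ((tlow hα0).and ((tlow hα1).and ((thigh hαs).and ((thigh hβ0).and ((thigh hβ1).and
      ((tlow hβt).and tdist))))))).exists
  obtain ⟨K, hK, hst, hKd, z, hzK, hzb⟩ := hesc (α n) (β n) (hα n) (hβ n) (s n) (t n) hn8.le
  let k : unitInterval × unitInterval → ℝ := fun z => cl η (u (α n z.1)) - cl η (u (β n z.2))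
  have hk : Continuous k := by
    have hcl : Continuous (cl η) := continuous_const.max (continuous_const.min continuous_id)
    exact (hcl.comp (hu.comp ((α n).continuous.comp continuous_fst))).sub
      (hcl.comp (hu.comp ((β n).continuous.comp continuous_snd)))
  have hkst : 0 ≤ k (s n, t n) := by
    show 0 ≤ cl η (u (α n (s n))) - cl η (u (β n (t n)))
    rw [cl_high hη4 hn4, cl_low hn7]
    linarith
  have hkz : k z ≤ 0 := by
    show cl η (u (α n z.1)) - cl η (u (β n z.2)) ≤ 0
    rcases hzb with h | h | h | h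
    · rw [h, cl_low hn2]
      linarith [cl_ge (η := η) (u := u (β n z.2))]
    · rw [h, cl_low hn3]
      linarith [cl_ge (η := η) (u := u (β n z.2))]
    · rw [h, cl_high hη4 hn5]
      linarith [cl_le (η := η) (u := u (α n z.1)) hη4]
    · rw [h, cl_high hη4 hn6]
      linarith [cl_le (η := η) (u := u (α n z.1)) hη4]
  obtain ⟨z', hz', hk0⟩ := hK.isPreconnected.intermediate_value hzK hst hk.continuousOn ⟨hkz, hkst⟩
  have h1 := hmle _ _ (hKd z' hz')
  have h2 : max (max (Metric.infDist (α n z'.1) A) (Metric.infDist (β n z'.2) A))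
      |u (α n z'.1) - u (β n z'.2)| < m := by
    refine max_lt (max_lt ?_ ?_) ?_
    · have := (hn1 z'.1).1
      linarith
    · have := (hn1 z'.2).2
      linarith
    · have e1 := cl_near hη hη4 (hu0 (α n z'.1)) (hu1 _)
      have e2 := cl_near hη hη4 (hu0 (β n z'.2)) (hu1 _)
      have e3 : cl η (u (α n z'.1)) = cl η (u (β n z'.2)) := sub_eq_zero.1 hk0
      rw [e3] at e1
      rw [abs_le] at e1 e2
      have : |u (α n z'.1) - u (β n z'.2)| ≤ 2 * η := by
        rw [abs_le]
        constructor <;> linarith [e1.1, e1.2, e2.1, e2.2]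
      linarith
  exact absurd h1 (not_le.2 h2)

end Pool.Agent.Work.MP_e7996b_gt.TN
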